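import Mathlib
import Pool.Agent.X170.PC.Stm

namespace Pool.Agent.X245.PC

open Pool.Agent.X170.PC

def wd {n : ℕ} (π : Equiv.Perm (Fin n)) : List ℕ := List.ofFn fun i => (π i : ℕ)

theorem g_wd {n : ℕ} (π : Equiv.Perm (Fin n)) (i : ℕ) (hi : i < n) : g (wd π) i = π ⟨i, hi⟩ := by
  unfold g wd
  rw [List.getD_eq_getElem _ _ (by simpa using hi)]
  simp

theorem finite_words (n : ℕ) : {w : List ℕ | w.length = n ∧ ∀ a ∈ w, a < w.length}.Finite := by
  have h := (List.finite_length_eq (Fin n) n).image (List.map (fun a : Fin n => (a : ℕ)))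
  refine h.subset ?_
  rintro w ⟨h1, h2⟩
  subst h1
  refine ⟨w.attach.map fun a => (⟨a.1, h2 a.1 a.2⟩ : Fin w.length), by simp, ?_⟩
  rw [List.map_map]
  exact List.attach_map_val (l := w) (f := fun a => a) |>.trans (List.map_id' _)

theorem finite_B (n : ℕ) : (B n).Finite :=
  (finite_words n).subset fun _ h => ⟨h.1, h.2.1.2.1⟩

theorem t_BR2 : S_BR2 := by
  intro n
  change Nat.card ({π : Equiv.Perm (Fin n) | P231 π ∧ Cyc π} : Set _) ≤ _
  rw [Nat.card_coe_set_eq]
  refine Set.ncard_le_ncard_of_injOn wd ?_ ?_ (finite_B n)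
  · rintro π ⟨h1, h2⟩
    have hlen : (wd π).length = n := by simp [wd]
    refine ⟨hlen, ⟨?_, ?_, ?_⟩, ?_⟩
    · unfold wd
      rw [List.nodup_ofFn]
      exact fun a b hab => π.injective (Fin.ext hab)
    · intro a ha
      rw [hlen]
      unfold wd at ha
      rw [List.mem_ofFn] at ha
      obtain ⟨i, rfl⟩ := ha
      exact (π i).2
    · intro i hi
      rw [hlen] at hi
      have hp := h2 ⟨i, hi⟩
      have hq := Function.iterate_minimalPeriod (f := π) (x := ⟨i, hi⟩)
      simp only [Set.mem_insert_iff, Set.mem_singleton_iff] at hp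
      have e1 : g (wd π) (g (wd π) i) = π (π ⟨i, hi⟩) := by
        rw [g_wd π i hi, g_wd π _ (π ⟨i, hi⟩).2]
      have e2 : g (wd π) (g (wd π) (g (wd π) i)) = π (π (π ⟨i, hi⟩)) := by
        rw [e1, g_wd π _ (π (π ⟨i, hi⟩)).2]
      rw [e2, e1]
      rcases hp with h | h | h <;> rw [h] at hq
      · left
        have h3 : π ⟨i, hi⟩ = ⟨i, hi⟩ := hq
        rw [h3, h3]
      · left
        have h3 : π (π ⟨i, hi⟩) = ⟨i, hi⟩ := hq
        rw [h3]
      · right
        have h3 : π (π (π ⟨i, hi⟩)) = ⟨i, hi⟩ := hq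
        rw [h3]
    · intro i j k hij hjk hk
      rw [hlen] at hk
      rw [g_wd π i (by omega), g_wd π j (by omega), g_wd π k hk]
      have := h1 ⟨i, by omega⟩ ⟨j, by omega⟩ ⟨k, hk⟩ hij hjk
      simpa only [Fin.lt_def] using this
  · intro π _ σ _ h
    unfold wd at h
    have := List.ofFn_injective h
    ext i
    exact congrFun this i

end Pool.Agent.X245.PC
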